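import Pool.Agent.Helper60.T3.GoalsE

/-!
# Project T3 (MP_a41896_nt), packet RST: univariate polynomials restricted to the coordinates of `I`
-/

set_option autoImplicit false

open MvPolynomial

namespace Pool.Agent.Helper26.T3.RST

open Pool.Agent.Helper60.T3
open Pool.Agent.Helper19.PM (wU)

/-- **RST**. -/
theorem t : S_RST := by
  classical
  intro K _ σ _ _ I D i r hr hdeg
  have hvars : (r.vars : Set σ) ⊆ Set.range (Subtype.val : {i // i ∈ I} → σ) := by
    intro l hl
    by_cases h : l = i.1
    · exact ⟨i, h.symm⟩
    · exfalso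
      have h1 := hdeg l
      rw [if_neg h] at h1
      have h2 : degreeOf l r = 0 := Nat.le_zero.mp h1
      rw [degreeOf_eq_sup] at h2
      obtain ⟨m, hm, hml⟩ := (mem_vars_iff_mem_support l).mp hl
      have h3 : m l ≤ r.support.sup fun m => m l := Finset.le_sup (f := fun m => m l) hm
      rw [h2] at h3
      exact (Finsupp.mem_support_iff.mp hml) (Nat.le_zero.mp h3)
  obtain ⟨r', rfl⟩ := exists_rename_eq_of_vars_subset_range r
    (Subtype.val : {i // i ∈ I} → σ) Subtype.val_injective hvars
  refine ⟨r', ?_, fun k => ?_, fun m => ⟨m.mapDomain Subtype.val, ?_⟩, fun x => ?_⟩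
  · rintro rfl
    exact hr (map_zero _)
  · have h1 := hdeg k.1
    rw [degreeOf_rename_of_injective Subtype.val_injective] at h1
    refine h1.trans (le_of_eq ?_)
    unfold wU
    by_cases h : k = i
    · rw [if_pos h, if_pos (congrArg Subtype.val h)]
    · rw [if_neg h, if_neg fun h' => h (Subtype.ext h')]
  · exact (coeff_rename_mapDomain _ Subtype.val_injective _ _).symm
  · rw [eval_rename]
    rfl

end Pool.Agent.Helper26.T3.RST
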